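import Mathlib

/-!
# An energy inequality for finite sets of complex numbers

`energy`: for a finite family of distinct complex numbers `z i` with nonnegative weights `x i` and
`0 ≤ t < 1`,
`∑_{i ≠ j} x i x j log |z i - z j| + t |∑ x i b(z i)|²
   ≤ 2 (∑ x) (∑ x log⁺|z|) + (∑ x)² log (2/(1+t)) + (∑ x²) log (1/(1-t))`
where `b z = z` for `|z| ≤ 1` and `b z = 1 / conj z` otherwise.
-/

set_option autoImplicit false

open Complex Finset

namespace Pool.Agent.H388SL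

/-- reflection of the exterior of the unit disc into the disc -/
noncomputable def refl (z : ℂ) : ℂ := if ‖z‖ ≤ 1 then z else (starRingEnd ℂ z)⁻¹

lemma norm_refl_le (z : ℂ) : ‖refl z‖ ≤ 1 := by
  unfold refl
  split_ifs with h
  · exact h
  · rw [norm_inv, RCLike.norm_conj]
    exact inv_le_one_of_one_le₀ (le_of_lt (not_le.mp h))

lemma aux_sq (z w : ℂ) : ‖1 - z * starRingEnd ℂ w‖ ^ 2 - ‖z - w‖ ^ 2 = (1 - ‖z‖ ^ 2) * (1 - ‖w‖ ^ 2) := by
  simp only [← Complex.normSq_eq_norm_sq]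
  simp only [Complex.normSq_apply, Complex.sub_re, Complex.sub_im, Complex.mul_re, Complex.mul_im,
    Complex.one_re, Complex.one_im, Complex.conj_re, Complex.conj_im]
  ring

/-- the basic inequality between pairs -/
lemma pair_le (z w : ℂ) :
    ‖z - w‖ ≤ max 1 ‖z‖ * max 1 ‖w‖ * ‖1 - refl z * starRingEnd ℂ (refl w)‖ := by
  unfold refl
  by_cases hz : ‖z‖ ≤ 1 <;> by_cases hw : ‖w‖ ≤ 1
  · rw [if_pos hz, if_pos hw, max_eq_left hz, max_eq_left hw, one_mul, one_mul]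
    have h := aux_sq z w
    have h1 : 0 ≤ (1 - ‖z‖ ^ 2) * (1 - ‖w‖ ^ 2) := by
      apply mul_nonneg <;> nlinarith [norm_nonneg z, norm_nonneg w]
    exact le_of_sq_le_sq (by linarith) (norm_nonneg _)
  · rw [if_pos hz, if_neg hw, max_eq_left hz, max_eq_right (le_of_lt (not_le.mp hw)), one_mul]
    have hw0 : w ≠ 0 := by
      rintro rfl; simp at hw
    rw [map_inv₀, Complex.conj_conj, ← norm_mul]
    apply le_of_eq
    rw [norm_sub_rev]
    congr 1
    field_simp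
  · rw [if_neg hz, if_pos hw, max_eq_left hw, max_eq_right (le_of_lt (not_le.mp hz)), mul_one]
    have hz0 : z ≠ 0 := by
      rintro rfl; simp at hz
    have hz0' : starRingEnd ℂ z ≠ 0 := by simpa using hz0
    have e : ‖z - w‖ = ‖starRingEnd ℂ z - starRingEnd ℂ w‖ := by
      rw [← map_sub, RCLike.norm_conj]
    have e2 : ‖z‖ = ‖starRingEnd ℂ z‖ := by rw [RCLike.norm_conj]
    rw [e, e2, ← norm_mul]
    apply le_of_eq
    congr 1
    field_simp
  · rw [if_neg hz, if_neg hw, max_eq_right (le_of_lt (not_le.mp hz)),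
      max_eq_right (le_of_lt (not_le.mp hw))]
    have hz0 : z ≠ 0 := by
      rintro rfl; simp at hz
    have hz0' : starRingEnd ℂ z ≠ 0 := by simpa using hz0
    have hw0 : w ≠ 0 := by
      rintro rfl; simp at hw
    rw [map_inv₀, Complex.conj_conj]
    have e2 : ‖z‖ = ‖starRingEnd ℂ z‖ := by rw [RCLike.norm_conj]
    rw [e2, ← norm_mul, ← norm_mul]
    have e3 : starRingEnd ℂ z * w * (1 - (starRingEnd ℂ z)⁻¹ * w⁻¹) = starRingEnd ℂ z * w - 1 := by
      field_simp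
    rw [e3]
    have h := aux_sq w z
    have h1 : 0 ≤ (1 - ‖w‖ ^ 2) * (1 - ‖z‖ ^ 2) := by
      have := not_le.mp hz
      have := not_le.mp hw
      apply mul_nonneg_of_nonpos_of_nonpos <;> nlinarith [norm_nonneg z, norm_nonneg w]
    rw [norm_sub_rev z w, norm_sub_rev _ (1:ℂ), mul_comm (starRingEnd ℂ z) w]
    exact le_of_sq_le_sq (by linarith) (norm_nonneg _)

lemma one_sub_le {t : ℝ} (ht0 : 0 ≤ t) (ht1 : t < 1) (u : ℂ) (hu : ‖u‖ ≤ 1) :
    ‖1 - u‖ ≤ 2 / (1 + t) * ‖1 - t * u‖ := by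
  have h1 : 0 < 1 + t := by linarith
  rw [div_mul_eq_mul_div, le_div_iff₀ h1]
  apply le_of_sq_le_sq _ (by positivity)
  have hs : ‖u‖ ^ 2 ≤ 1 := by nlinarith [norm_nonneg u]
  have e : ‖u‖ ^ 2 = u.re ^ 2 + u.im ^ 2 := by
    rw [← Complex.normSq_eq_norm_sq, Complex.normSq_apply]; ring
  have e1 : ‖1 - u‖ ^ 2 = 1 - 2 * u.re + ‖u‖ ^ 2 := by
    rw [e, ← Complex.normSq_eq_norm_sq, Complex.normSq_apply]
    simp; ring
  have e2 : ‖1 - t * u‖ ^ 2 = 1 - 2 * t * u.re + t ^ 2 * ‖u‖ ^ 2 := by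
    rw [e, ← Complex.normSq_eq_norm_sq, Complex.normSq_apply]
    simp; ring
  have hx : -1 ≤ u.re := by
    have := Complex.abs_re_le_norm u
    have h2 := neg_abs_le u.re
    linarith
  rw [mul_pow, mul_pow, e1, e2]
  have key : (2:ℝ) ^ 2 * (1 - 2 * t * u.re + t ^ 2 * ‖u‖ ^ 2) - (1 - 2 * u.re + ‖u‖ ^ 2) * (1 + t) ^ 2
      = (1 - t) * ((3 + t) + 2 * (1 - t) * u.re - (3 * t + 1) * ‖u‖ ^ 2) := by ring
  have h3 : 0 ≤ (1 - t) * ((3 + t) + 2 * (1 - t) * u.re - (3 * t + 1) * ‖u‖ ^ 2) := by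
    apply mul_nonneg (by linarith)
    nlinarith [mul_nonneg (by linarith : (0:ℝ) ≤ 1 - t) (by linarith : 0 ≤ 1 + u.re),
      mul_nonneg (by linarith : (0:ℝ) ≤ 3 * t + 1) (by linarith : 0 ≤ 1 - ‖u‖ ^ 2)]
  linarith

/-- positive definiteness of the kernel -/
lemma posdef {ι : Type*} (s : Finset ι) (x : ι → ℝ) (b : ι → ℂ)
    (hb : ∀ i ∈ s, ‖b i‖ ≤ 1) {t : ℝ} (ht0 : 0 ≤ t) (ht1 : t < 1) :
    ∑ i ∈ s, ∑ j ∈ s, x i * x j * Real.log ‖1 - (t : ℂ) * (b i * starRingEnd ℂ (b j))‖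
      ≤ - t * ‖∑ i ∈ s, x i * b i‖ ^ 2 := by
  have hnorm : ∀ i ∈ s, ∀ j ∈ s, ‖(t : ℂ) * (b i * starRingEnd ℂ (b j))‖ < 1 := by
    intro i hi j hj
    rw [norm_mul, norm_mul, RCLike.norm_conj, Complex.norm_real, Real.norm_of_nonneg ht0]
    have h1 : ‖b i‖ * ‖b j‖ ≤ 1 := by
      have := hb i hi; have := hb j hj
      exact mul_le_one₀ (hb i hi) (norm_nonneg _) (hb j hj)
    nlinarith [norm_nonneg (b i), norm_nonneg (b j), mul_nonneg (norm_nonneg (b i)) (norm_nonneg (b j))]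
  have hsum : ∀ i ∈ s, ∀ j ∈ s, HasSum
      (fun n : ℕ => x i * x j * (((t : ℂ) * (b i * starRingEnd ℂ (b j))) ^ n / n).re)
      (x i * x j * (- Real.log ‖1 - (t : ℂ) * (b i * starRingEnd ℂ (b j))‖)) := by
    intro i hi j hj
    have h := Complex.hasSum_re (Complex.hasSum_taylorSeries_neg_log (hnorm i hi j hj))
    rw [Complex.neg_re, Complex.log_re] at h
    exact h.mul_left _
  have h2 : HasSum (fun n : ℕ => ∑ i ∈ s, ∑ j ∈ s,
        x i * x j * (((t : ℂ) * (b i * starRingEnd ℂ (b j))) ^ n / n).re)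
      (∑ i ∈ s, ∑ j ∈ s, x i * x j * (- Real.log ‖1 - (t : ℂ) * (b i * starRingEnd ℂ (b j))‖)) :=
    hasSum_sum fun i hi => hasSum_sum fun j hj => hsum i hi j hj
  have hterm : ∀ n : ℕ, (∑ i ∈ s, ∑ j ∈ s,
        x i * x j * (((t : ℂ) * (b i * starRingEnd ℂ (b j))) ^ n / n).re)
      = t ^ n / n * ‖∑ i ∈ s, x i * b i ^ n‖ ^ 2 := by
    intro n
    have e1 : (∑ i ∈ s, ∑ j ∈ s,
        x i * x j * (((t : ℂ) * (b i * starRingEnd ℂ (b j))) ^ n / n).re)
        = (∑ i ∈ s, ∑ j ∈ s,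
          ((x i : ℂ) * x j * (((t : ℂ) * (b i * starRingEnd ℂ (b j))) ^ n / n))).re := by
      rw [Complex.re_sum]
      refine Finset.sum_congr rfl fun i _ => ?_
      rw [Complex.re_sum]
      refine Finset.sum_congr rfl fun j _ => ?_
      rw [← Complex.ofReal_mul, Complex.re_ofReal_mul]
    have e2 : (∑ i ∈ s, ∑ j ∈ s,
          ((x i : ℂ) * x j * (((t : ℂ) * (b i * starRingEnd ℂ (b j))) ^ n / n)))
        = ((t ^ n / n : ℝ) : ℂ) * ((∑ i ∈ s, (x i : ℂ) * b i ^ n) *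
            starRingEnd ℂ (∑ i ∈ s, (x i : ℂ) * b i ^ n)) := by
      rw [map_sum, Finset.sum_mul_sum, Finset.mul_sum]
      refine Finset.sum_congr rfl fun i _ => ?_
      rw [Finset.mul_sum]
      refine Finset.sum_congr rfl fun j _ => ?_
      rw [map_mul, map_pow, Complex.conj_ofReal]
      push_cast
      ring
    rw [e1, e2, Complex.mul_conj, Complex.normSq_eq_norm_sq, ← Complex.ofReal_mul, Complex.ofReal_re]
  have h3 := h2
  simp_rw [hterm] at h3
  have h4 : t ^ 1 / (1:ℕ) * ‖∑ i ∈ s, (x i : ℂ) * b i ^ 1‖ ^ 2 ≤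
      ∑ i ∈ s, ∑ j ∈ s, x i * x j * (- Real.log ‖1 - (t : ℂ) * (b i * starRingEnd ℂ (b j))‖) := by
    refine le_hasSum h3 1 ?_
    intro n _
    positivity
  have e5 : ∑ i ∈ s, ∑ j ∈ s, x i * x j * (- Real.log ‖1 - (t : ℂ) * (b i * starRingEnd ℂ (b j))‖)
      = - ∑ i ∈ s, ∑ j ∈ s, x i * x j * Real.log ‖1 - (t : ℂ) * (b i * starRingEnd ℂ (b j))‖ := by
    rw [← Finset.sum_neg_distrib]
    refine Finset.sum_congr rfl fun i _ => ?_
    rw [← Finset.sum_neg_distrib]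
    refine Finset.sum_congr rfl fun j _ => ?_
    ring
  rw [e5] at h4
  simp only [pow_one, Nat.cast_one, div_one] at h4
  linarith

/-- the energy inequality -/
theorem energy {ι : Type*} [DecidableEq ι] (s : Finset ι) (x : ι → ℝ) (hx : ∀ i ∈ s, 0 ≤ x i)
    (z : ι → ℂ) (hz : ∀ i ∈ s, ∀ j ∈ s, i ≠ j → z i ≠ z j) {t : ℝ} (ht0 : 0 ≤ t) (ht1 : t < 1) :
    ∑ i ∈ s, ∑ j ∈ s, (if i = j then 0 else x i * x j * Real.log ‖z i - z j‖)
        + t * ‖∑ i ∈ s, x i * refl (z i)‖ ^ 2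
      ≤ 2 * (∑ i ∈ s, x i) * (∑ i ∈ s, x i * Real.log (max 1 ‖z i‖))
        + (∑ i ∈ s, x i) ^ 2 * Real.log (2 / (1 + t)) + (∑ i ∈ s, x i ^ 2) * Real.log (1 / (1 - t)) := by
  have hL : 0 ≤ Real.log (2 / (1 + t)) := by
    apply Real.log_nonneg
    rw [le_div_iff₀ (by linarith)]; linarith
  -- pointwise bound
  have hpt : ∀ i ∈ s, ∀ j ∈ s, (if i = j then (0:ℝ) else x i * x j * Real.log ‖z i - z j‖) ≤
      (x i * x j * (Real.log (max 1 ‖z i‖) + Real.log (max 1 ‖z j‖) + Real.log (2 / (1 + t)))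
        + x i * x j * Real.log ‖1 - (t : ℂ) * (refl (z i) * starRingEnd ℂ (refl (z j)))‖)
        + (if i = j then x i ^ 2 * Real.log (1 / (1 - t)) else 0) := by
    intro i hi j hj
    have hxx : 0 ≤ x i * x j := mul_nonneg (hx i hi) (hx j hj)
    have hLi : 0 ≤ Real.log (max 1 ‖z i‖) := Real.log_nonneg (le_max_left _ _)
    have hLj : 0 ≤ Real.log (max 1 ‖z j‖) := Real.log_nonneg (le_max_left _ _)
    by_cases hij : i = j
    · subst hij
      rw [if_pos rfl, if_pos rfl]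
      have h1 : 1 - t ≤ ‖1 - (t : ℂ) * (refl (z i) * starRingEnd ℂ (refl (z i)))‖ := by
        have h2 : ‖(t : ℂ) * (refl (z i) * starRingEnd ℂ (refl (z i)))‖ ≤ t := by
          rw [norm_mul, norm_mul, RCLike.norm_conj, Complex.norm_real, Real.norm_of_nonneg ht0]
          have h3 : ‖refl (z i)‖ * ‖refl (z i)‖ ≤ 1 :=
            mul_le_one₀ (norm_refl_le _) (norm_nonneg _) (norm_refl_le _)
          nlinarith
        have h4 := norm_sub_norm_le (1:ℂ) ((t : ℂ) * (refl (z i) * starRingEnd ℂ (refl (z i))))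
        rw [norm_one] at h4
        linarith
      have h5 : Real.log (1 - t) ≤ Real.log ‖1 - (t : ℂ) * (refl (z i) * starRingEnd ℂ (refl (z i)))‖ :=
        Real.log_le_log (by linarith) h1
      have h6 : Real.log (1 / (1 - t)) = - Real.log (1 - t) := by
        rw [one_div, Real.log_inv]
      rw [h6]
      have h7 : 0 ≤ x i * x i * (Real.log (max 1 ‖z i‖) + Real.log (max 1 ‖z i‖) + Real.log (2 / (1 + t))) :=
        mul_nonneg hxx (by linarith)
      have h8 : x i * x i * Real.log (1 - t) ≤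
          x i * x i * Real.log ‖1 - (t : ℂ) * (refl (z i) * starRingEnd ℂ (refl (z i)))‖ :=
        mul_le_mul_of_nonneg_left h5 hxx
      nlinarith
    · rw [if_neg hij, if_neg hij, add_zero, ← mul_add]
      apply mul_le_mul_of_nonneg_left _ hxx
      have hne : z i - z j ≠ 0 := sub_ne_zero.mpr (hz i hi j hj hij)
      have hb : ‖refl (z i) * starRingEnd ℂ (refl (z j))‖ ≤ 1 := by
        rw [norm_mul, RCLike.norm_conj]
        exact mul_le_one₀ (norm_refl_le _) (norm_nonneg _) (norm_refl_le _)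
      have h1 := pair_le (z i) (z j)
      have h2 := one_sub_le ht0 ht1 _ hb
      have hmi : 0 < max 1 ‖z i‖ := lt_of_lt_of_le one_pos (le_max_left _ _)
      have hmj : 0 < max 1 ‖z j‖ := lt_of_lt_of_le one_pos (le_max_left _ _)
      have h3 : ‖z i - z j‖ ≤ max 1 ‖z i‖ * max 1 ‖z j‖ *
          (2 / (1 + t) * ‖1 - (t : ℂ) * (refl (z i) * starRingEnd ℂ (refl (z j)))‖) :=
        h1.trans (mul_le_mul_of_nonneg_left h2 (by positivity))
      have hpos : 0 < ‖z i - z j‖ := norm_pos_iff.mpr hne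
      have h2t : 0 < 2 / (1 + t) := by apply div_pos <;> linarith
      have h4 : 0 < ‖1 - (t : ℂ) * (refl (z i) * starRingEnd ℂ (refl (z j)))‖ := by
        rcases (norm_nonneg (1 - (t : ℂ) * (refl (z i) * starRingEnd ℂ (refl (z j))))).lt_or_eq with h | h
        · exact h
        · rw [← h] at h3
          simp at h3
          exact absurd h3 hne
      calc Real.log ‖z i - z j‖ ≤ Real.log (max 1 ‖z i‖ * max 1 ‖z j‖ *
          (2 / (1 + t) * ‖1 - (t : ℂ) * (refl (z i) * starRingEnd ℂ (refl (z j)))‖)) :=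
            Real.log_le_log hpos h3
        _ = _ := by
          rw [Real.log_mul (by positivity) (by positivity), Real.log_mul (by positivity) (by positivity),
            Real.log_mul (by positivity) (by positivity)]
          ring
  have hsum := Finset.sum_le_sum fun i hi => Finset.sum_le_sum fun j hj => hpt i hi j hj
  simp only [Finset.sum_add_distrib] at hsum
  have hpd := posdef s x (fun i => refl (z i)) (fun i _ => norm_refl_le _) ht0 ht1
  have e1 : ∑ i ∈ s, ∑ j ∈ s, (if i = j then x i ^ 2 * Real.log (1 / (1 - t)) else 0)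
      = (∑ i ∈ s, x i ^ 2) * Real.log (1 / (1 - t)) := by
    rw [Finset.sum_mul]
    refine Finset.sum_congr rfl fun i hi => ?_
    rw [Finset.sum_ite_eq, if_pos hi]
  have e2 : ∑ i ∈ s, ∑ j ∈ s, x i * x j * (Real.log (max 1 ‖z i‖) + Real.log (max 1 ‖z j‖) + Real.log (2 / (1 + t)))
      = 2 * (∑ i ∈ s, x i) * (∑ i ∈ s, x i * Real.log (max 1 ‖z i‖))
        + (∑ i ∈ s, x i) ^ 2 * Real.log (2 / (1 + t)) := by
    have e3 : ∀ i ∈ s, ∑ j ∈ s, x i * x j * (Real.log (max 1 ‖z i‖) + Real.log (max 1 ‖z j‖) + Real.log (2 / (1 + t)))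
        = x i * Real.log (max 1 ‖z i‖) * (∑ j ∈ s, x j) + x i * (∑ j ∈ s, x j * Real.log (max 1 ‖z j‖))
          + x i * (∑ j ∈ s, x j) * Real.log (2 / (1 + t)) := by
      intro i _
      rw [Finset.mul_sum, Finset.mul_sum, Finset.mul_sum, Finset.sum_mul, ← Finset.sum_add_distrib,
        ← Finset.sum_add_distrib]
      refine Finset.sum_congr rfl fun j _ => ?_
      ring
    rw [Finset.sum_congr rfl e3, Finset.sum_add_distrib, Finset.sum_add_distrib, ← Finset.sum_mul,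
      ← Finset.sum_mul, ← Finset.sum_mul, ← Finset.sum_mul]
    ring
  rw [e1] at hsum
  rw [e2] at hsum
  linarith

end Pool.Agent.H388SL
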