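import Mathlib

/-!
# Products over embeddings of a number field

Integrality facts for products of differences of conjugates.
-/

set_option autoImplicit false

open Finset Polynomial Module

namespace Pool.Agent.H388SL

variable {K : Type*} [Field K] [NumberField K]

/-- nonzero algebraic integers have norm at least one -/
lemma one_le_prod_norm {w : K} (hw : IsIntegral ℤ w) (h0 : w ≠ 0) :
    1 ≤ ∏ σ : K →ₐ[ℚ] ℂ, ‖σ w‖ := by
  have h1 := Algebra.norm_eq_prod_embeddings ℚ ℂ w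
  have h2 : IsIntegral ℤ (Algebra.norm ℚ w) := Algebra.isIntegral_norm ℚ hw
  obtain ⟨n, hn⟩ := IsIntegrallyClosed.isIntegral_iff.mp h2
  have hn0 : n ≠ 0 := by
    rintro rfl
    rw [map_zero] at hn
    exact h0 (Algebra.norm_eq_zero_iff.mp hn.symm)
  rw [← norm_prod, ← h1, ← hn]
  rw [eq_intCast, eq_ratCast, Rat.cast_intCast, Complex.norm_intCast]
  exact_mod_cast Int.one_le_abs hn0

/-- if `w = p * y` with `y` integral nonzero, then the norm of `w` is at least `p ^ d` -/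
lemma pow_le_prod_norm {y : K} (hy : IsIntegral ℤ y) (h0 : y ≠ 0) (p : ℕ) :
    (p : ℝ) ^ finrank ℚ K ≤ ∏ σ : K →ₐ[ℚ] ℂ, ‖σ ((p : K) * y)‖ := by
  have h1 := one_le_prod_norm hy h0
  have h2 : ∏ σ : K →ₐ[ℚ] ℂ, ‖σ ((p : K) * y)‖ = (p : ℝ) ^ finrank ℚ K * ∏ σ : K →ₐ[ℚ] ℂ, ‖σ y‖ := by
    simp_rw [map_mul, map_natCast, norm_mul, Complex.norm_natCast]
    rw [Finset.prod_mul_distrib, Finset.prod_const, Finset.card_univ, AlgHom.card]
  rw [h2]
  have h3 : (0:ℝ) ≤ (p : ℝ) ^ finrank ℚ K := by positivity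
  nlinarith

/-- the conjugates of `β` under the embeddings are pairwise distinct -/
def CInj (β : K) : Prop := Function.Injective fun σ : K →ₐ[ℚ] ℂ => σ β

lemma minpoly_map_eq {γ : K} (hγ : CInj γ) :
    (minpoly ℚ γ).map (algebraMap ℚ ℂ) = ∏ τ : K →ₐ[ℚ] ℂ, (X - C (τ γ)) := by
  classical
  have hint : IsIntegral ℚ γ := Algebra.IsIntegral.isIntegral γ
  have hs : ((minpoly ℚ γ).map (algebraMap ℚ ℂ)).Splits := IsAlgClosed.splits _
  have hm : ((minpoly ℚ γ).map (algebraMap ℚ ℂ)).Monic := (minpoly.monic hint).map _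
  have hnd : ((minpoly ℚ γ).map (algebraMap ℚ ℂ)).roots.Nodup :=
    nodup_roots (show (minpoly ℚ γ).Separable from Algebra.IsSeparable.isSeparable ℚ γ).map
  have h1 := hs.eq_prod_roots_of_monic hm
  have h2 : ((minpoly ℚ γ).map (algebraMap ℚ ℂ)).roots = (Finset.univ : Finset (K →ₐ[ℚ] ℂ)).val.map (fun τ => τ γ) := by
    rw [Multiset.Nodup.ext hnd]
    · intro z
      have h3 := (NumberField.isAlgebraic K).range_eval_eq_rootSet_minpoly ℂ γ
      have h4 : z ∈ (minpoly ℚ γ).rootSet ℂ ↔ z ∈ ((minpoly ℚ γ).map (algebraMap ℚ ℂ)).roots := by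
        rw [Polynomial.rootSet_def, Finset.mem_coe, Multiset.mem_toFinset]
      rw [← h4, ← h3]
      simp
    · exact (Multiset.nodup_map_iff_of_injective hγ).mpr Finset.univ.nodup
  rw [h1, h2, Multiset.map_map]
  rfl

lemma aeval_minpoly_eq {γ : K} (hγ : CInj γ) (x : ℂ) :
    aeval x (minpoly ℚ γ) = ∏ τ : K →ₐ[ℚ] ℂ, (x - τ γ) := by
  rw [Polynomial.aeval_def, ← Polynomial.eval_map, minpoly_map_eq hγ, Polynomial.eval_prod]
  simp

lemma aeval_minpolyZ_eq {γ : K} (hi : IsIntegral ℤ γ) (hγ : CInj γ) (x : ℂ) :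
    aeval x (minpoly ℤ γ) = ∏ τ : K →ₐ[ℚ] ℂ, (x - τ γ) := by
  rw [← aeval_minpoly_eq hγ, minpoly.isIntegrallyClosed_eq_field_fractions' ℚ hi,
    Polynomial.aeval_map_algebraMap]

lemma map_aevalZ (σ : K →ₐ[ℚ] ℂ) (P : ℤ[X]) (x : K) : σ (aeval x P) = aeval (σ x) P := by
  have := Polynomial.hom_eval₂ P (algebraMap ℤ K) (σ : K →+* ℂ) x
  simp only [Polynomial.aeval_def]
  rw [show σ (eval₂ (algebraMap ℤ K) x P) = (σ : K →+* ℂ) (eval₂ (algebraMap ℤ K) x P) from rfl, this]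
  congr 1
  exact RingHom.ext_int _ _

lemma isIntegral_aevalZ {x : K} (hx : IsIntegral ℤ x) (P : ℤ[X]) : IsIntegral ℤ (aeval x P) := by
  have h1 : aeval x P ∈ Algebra.adjoin ℤ {x} := Polynomial.aeval_mem_adjoin_singleton ℤ x
  exact adjoin_le_integralClosure hx h1

/-- cross terms -/
lemma one_le_cross {β γ : K} (hβ : IsIntegral ℤ β) (hγ : IsIntegral ℤ γ) (hc : CInj γ)
    (hne : ∀ σ τ : K →ₐ[ℚ] ℂ, σ β ≠ τ γ) :
    1 ≤ ∏ σ : K →ₐ[ℚ] ℂ, ∏ τ : K →ₐ[ℚ] ℂ, ‖σ β - τ γ‖ := by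
  have e : ∀ σ : K →ₐ[ℚ] ℂ, ∏ τ : K →ₐ[ℚ] ℂ, ‖σ β - τ γ‖ = ‖σ (aeval β (minpoly ℤ γ))‖ := by
    intro σ
    rw [map_aevalZ, aeval_minpolyZ_eq hγ hc, norm_prod]
  simp_rw [e]
  apply one_le_prod_norm (isIntegral_aevalZ hβ _)
  intro h0
  obtain ⟨σ⟩ : Nonempty (K →ₐ[ℚ] ℂ) := ⟨IsAlgClosed.lift⟩
  have h1 := map_aevalZ σ (minpoly ℤ γ) β
  rw [h0, map_zero, aeval_minpolyZ_eq hγ hc] at h1
  obtain ⟨τ, _, hτ⟩ := Finset.prod_eq_zero_iff.mp h1.symm
  exact hne σ τ (sub_eq_zero.mp hτ)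

/-- discriminant -/
lemma one_le_disc [DecidableEq (K →ₐ[ℚ] ℂ)] {β : K} (hβ : IsIntegral ℤ β) (hc : CInj β) :
    1 ≤ ∏ σ : K →ₐ[ℚ] ℂ, ∏ τ ∈ Finset.univ.erase σ, ‖σ β - τ β‖ := by
  have e : ∀ σ : K →ₐ[ℚ] ℂ, σ (aeval β (derivative (minpoly ℤ β))) =
      ∏ τ ∈ Finset.univ.erase σ, (σ β - τ β) := by
    intro σ
    rw [map_aevalZ]
    have h1 : (derivative (minpoly ℤ β)).map (algebraMap ℤ ℂ) =
        derivative (∏ τ : K →ₐ[ℚ] ℂ, (X - C (τ β))) := by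
      rw [← Polynomial.derivative_map, ← minpoly_map_eq hc,
        minpoly.isIntegrallyClosed_eq_field_fractions' ℚ hβ, Polynomial.map_map]
      rfl
    rw [Polynomial.aeval_def, ← Polynomial.eval_map, h1, Polynomial.derivative_prod_finset,
      Polynomial.eval_finsetSum]
    rw [Finset.sum_eq_single σ]
    · rw [Polynomial.eval_mul, Polynomial.eval_prod]
      simp
    · intro τ _ hτ
      rw [Polynomial.eval_mul, Polynomial.eval_prod]
      rw [Finset.prod_eq_zero (i := σ)]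
      · simp
      · simp [Ne.symm hτ]
      · simp
    · simp
  have e' : ∀ σ : K →ₐ[ℚ] ℂ, ∏ τ ∈ Finset.univ.erase σ, ‖σ β - τ β‖ =
      ‖σ (aeval β (derivative (minpoly ℤ β)))‖ := by
    intro σ
    rw [e, norm_prod]
  simp_rw [e']
  apply one_le_prod_norm (isIntegral_aevalZ hβ _)
  intro h0
  obtain ⟨σ⟩ : Nonempty (K →ₐ[ℚ] ℂ) := ⟨IsAlgClosed.lift⟩
  have h1 := e σ
  rw [h0, map_zero] at h1
  obtain ⟨τ, hτ, hτ2⟩ := Finset.prod_eq_zero_iff.mp h1.symm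
  exact (Finset.ne_of_mem_erase hτ) (hc (sub_eq_zero.mp hτ2)).symm

lemma expand_eq (q : ℕ) [Fact q.Prime] (G : ℤ[X]) :
    ∃ v : ℤ[X], expand ℤ q G = G ^ q + C (q : ℤ) * v := by
  have h0 : (expand ℤ q G - G ^ q).map (Int.castRingHom (ZMod q)) = 0 := by
    rw [Polynomial.map_sub, Polynomial.map_pow, Polynomial.map_expand, ZMod.expand_card, sub_self]
  have : C (q : ℤ) ∣ (expand ℤ q G - G ^ q) := by
    rw [Polynomial.C_dvd_iff_dvd_coeff]
    intro i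
    have h1 := congrArg (fun u => Polynomial.coeff u i) h0
    simp only [Polynomial.coeff_map, Polynomial.coeff_zero, eq_intCast] at h1
    exact (ZMod.intCast_zmod_eq_zero_iff_dvd _ _).1 h1
  obtain ⟨v, hv⟩ := this
  exact ⟨v, by rw [← hv]; ring⟩

/-- the Frobenius congruence for conjugates -/
lemma pow_le_frob {α : K} (hα : IsIntegral ℤ α) (hc : CInj α) (p : ℕ) (hp : p.Prime)
    (hne : ∀ σ τ : K →ₐ[ℚ] ℂ, σ (α ^ p) ≠ τ α) :
    (p : ℝ) ^ finrank ℚ K ≤ ∏ σ : K →ₐ[ℚ] ℂ, ∏ τ : K →ₐ[ℚ] ℂ, ‖σ (α ^ p) - τ α‖ := by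
  have : Fact p.Prime := ⟨hp⟩
  obtain ⟨v, hv⟩ := expand_eq p (minpoly ℤ α)
  have h1 : aeval (α ^ p) (minpoly ℤ α) = (p : K) * aeval α v := by
    rw [← Polynomial.expand_aeval, hv]
    simp [minpoly.aeval, hp.ne_zero]
  have e : ∀ σ : K →ₐ[ℚ] ℂ, ∏ τ : K →ₐ[ℚ] ℂ, ‖σ (α ^ p) - τ α‖ = ‖σ ((p : K) * aeval α v)‖ := by
    intro σ
    rw [← h1, map_aevalZ, aeval_minpolyZ_eq hα hc, norm_prod]
  simp_rw [e]
  apply pow_le_prod_norm (isIntegral_aevalZ hα _)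
  intro h0
  obtain ⟨σ⟩ : Nonempty (K →ₐ[ℚ] ℂ) := ⟨IsAlgClosed.lift⟩
  have h2 := map_aevalZ σ (minpoly ℤ α) (α ^ p)
  rw [h1, h0, mul_zero, map_zero, aeval_minpolyZ_eq hα hc] at h2
  obtain ⟨τ, _, hτ⟩ := Finset.prod_eq_zero_iff.mp h2.symm
  exact hne σ τ (sub_eq_zero.mp hτ)

/-- sums over embeddings of a function of a fixed element -/
lemma sum_embeddings' {M : Type*} [AddCommMonoid M] (β : K) (F : ℂ → M) :
    ∑ σ : K →ₐ[ℚ] ℂ, F (σ β) = (finrank (IntermediateField.adjoin ℚ {β}) K) •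
      ∑ σ : (IntermediateField.adjoin ℚ {β}) →ₐ[ℚ] ℂ, F (σ (IntermediateField.AdjoinSimple.gen ℚ β)) := by
  classical
  set L := IntermediateField.adjoin ℚ {β} with hL
  rw [Fintype.sum_equiv (algHomEquivSigma (A := ℚ) (B := L) (C := K) (D := ℂ))
    (fun σ : K →ₐ[ℚ] ℂ => F (σ β))
    (fun σ => F (σ.1 (IntermediateField.AdjoinSimple.gen ℚ β))), ← Finset.univ_sigma_univ,
    Finset.sum_sigma, Finset.smul_sum]
  · refine Finset.sum_congr rfl fun σ _ => ?_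
    let _ : Algebra L ℂ := σ.toRingHom.toAlgebra
    refine (Finset.sum_congr rfl (fun s _ =>
      (rfl : _ = F (σ (IntermediateField.AdjoinSimple.gen ℚ β))))).trans ?_
    rw [Finset.sum_const, Finset.card_univ]
    congr 1
    exact AlgHom.card L K ℂ
  · intro σ
    simp only [algHomEquivSigma, Equiv.coe_fn_mk, AlgHom.domRestrict, AlgHom.comp_apply,
      IsScalarTower.coe_toAlgHom']
    rfl

lemma CInj_gen (β : K) : CInj (IntermediateField.AdjoinSimple.gen ℚ β) := by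
  intro σ τ h
  apply IntermediateField.adjoin_algHom_ext ℚ (s := {β})
  intro x hx
  rw [Set.mem_singleton_iff] at hx
  subst hx
  exact h

end Pool.Agent.H388SL
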