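import Mathlib
import Pool.Agent.H388SL.DobA

/-!
# Primes at which the degree drops
-/

set_option autoImplicit false

open Finset Polynomial Module IntermediateField

namespace Pool.Agent.H388SL

variable {K : Type*} [Field K] [NumberField K]

lemma CInj_of_mem {α β : K} (hc : CInj α) (h : α ∈ adjoin ℚ {β}) : CInj β := by
  intro σ τ hστ
  have h1 : σ.comp (adjoin ℚ {β}).val = τ.comp (adjoin ℚ {β}).val := by
    apply adjoin_algHom_ext ℚ (s := {β})
    intro x hx
    rw [Set.mem_singleton_iff] at hx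
    subst hx
    exact hστ
  have h2 := DFunLike.congr_fun h1 ⟨α, h⟩
  exact hc h2

lemma mem_of_coprime {α : K} (h0 : α ≠ 0) (F : IntermediateField ℚ K) {m n : ℕ}
    (hmn : Nat.Coprime m n) (hm : α ^ m ∈ F) (hn : α ^ n ∈ F) : α ∈ F := by
  have h1 := Nat.gcd_eq_gcd_ab m n
  rw [hmn] at h1
  have h2 : α = (α ^ m) ^ (Nat.gcdA m n) * (α ^ n) ^ (Nat.gcdB m n) := by
    rw [← zpow_natCast α m, ← zpow_natCast α n, ← zpow_mul, ← zpow_mul, ← zpow_add₀ h0, ← h1]
    simp
  rw [h2]
  exact mul_mem (zpow_mem hm _) (zpow_mem hn _)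

lemma two_mul_finrank_le {E F : IntermediateField ℚ K} (h : E < F) :
    2 * finrank ℚ E ≤ finrank ℚ F := by
  obtain ⟨k, hk⟩ := IntermediateField.finrank_dvd_of_le_right h.le
  have hpos : 0 < finrank ℚ F := finrank_pos
  have hpos' : 0 < finrank ℚ E := finrank_pos
  have h1 : k ≠ 0 := by rintro rfl; omega
  have h2 : k ≠ 1 := by
    rintro rfl
    exact h.ne (IntermediateField.eq_of_le_of_finrank_eq h.le (by omega))
  have : 2 ≤ k := by omega
  nlinarith

lemma two_pow_bad {α : K} (h0 : α ≠ 0) (hc : CInj α) (B : Finset ℕ) (hB : ∀ p ∈ B, p.Prime)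
    (hbad : ∀ p ∈ B, ¬ CInj (α ^ p)) :
    2 ^ B.card * finrank ℚ (adjoin ℚ {α ^ (∏ p ∈ B, p)}) ≤ finrank ℚ K := by
  classical
  induction B using Finset.induction_on with
  | empty =>
    simp only [Finset.card_empty, pow_zero, one_mul]
    exact Nat.le_of_dvd finrank_pos ⟨_, (finrank_mul_finrank ℚ (adjoin ℚ {α ^ (∏ p ∈ (∅ : Finset ℕ), p)}) K).symm⟩
  | insert p B hp ih =>
    have ih' := ih (fun q hq => hB q (Finset.mem_insert_of_mem hq))
      (fun q hq => hbad q (Finset.mem_insert_of_mem hq))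
    set P := ∏ q ∈ B, q with hP
    have hcop : Nat.Coprime P p := by
      rw [hP]
      apply Nat.Coprime.prod_left
      intro q hq
      rw [Nat.coprime_primes (hB q (Finset.mem_insert_of_mem hq)) (hB p (Finset.mem_insert_self _ _))]
      rintro rfl
      exact hp hq
    have hlt : adjoin ℚ {α ^ (p * P)} < adjoin ℚ {α ^ P} := by
      rw [lt_iff_le_not_ge]
      constructor
      · rw [adjoin_simple_le_iff, mul_comm, pow_mul]
        exact pow_mem (mem_adjoin_simple_self ℚ _) p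
      · intro hle
        rw [adjoin_simple_le_iff] at hle
        have h1 : adjoin ℚ {α ^ (p * P)} ≤ adjoin ℚ {α ^ p} := by
          rw [adjoin_simple_le_iff, pow_mul]
          exact pow_mem (mem_adjoin_simple_self ℚ _) P
        have h2 : α ∈ adjoin ℚ {α ^ p} :=
          mem_of_coprime h0 _ hcop (h1 hle) (mem_adjoin_simple_self ℚ _)
        exact hbad p (Finset.mem_insert_self _ _) (CInj_of_mem hc h2)
    have h3 := two_mul_finrank_le hlt
    rw [Finset.card_insert_of_notMem hp, Finset.prod_insert hp, ← hP, pow_succ]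
    calc 2 ^ B.card * 2 * finrank ℚ (adjoin ℚ {α ^ (p * P)})
        = 2 ^ B.card * (2 * finrank ℚ (adjoin ℚ {α ^ (p * P)})) := by ring
      _ ≤ 2 ^ B.card * finrank ℚ (adjoin ℚ {α ^ P}) := Nat.mul_le_mul_left _ h3
      _ ≤ _ := ih'

lemma card_bad {α : K} (h0 : α ≠ 0) (hc : CInj α) (B : Finset ℕ) (hB : ∀ p ∈ B, p.Prime)
    (hbad : ∀ p ∈ B, ¬ CInj (α ^ p)) : 2 ^ B.card ≤ finrank ℚ K := by
  have h := two_pow_bad h0 hc B hB hbad
  have h1 : 0 < finrank ℚ (adjoin ℚ {α ^ (∏ p ∈ B, p)}) := finrank_pos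
  calc 2 ^ B.card = 2 ^ B.card * 1 := by ring
    _ ≤ _ := Nat.mul_le_mul_left _ h1
    _ ≤ _ := h

end Pool.Agent.H388SL
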